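import Pool.Agent.H574R2.D9.AMz

/-!
# Bounds of the coefficients of the linear forms (for any family of nodes)

`one_pole` is `G2_one` of `Pool/Agent/H574R2/D9/G2.lean` with an arbitrary family of nodes in the second factor.
-/

open Polynomial Pool.Agent.H337R2 Pool.Agent.H574R2.D9

namespace Pool.Agent.TH21.PD9

noncomputable section

set_option autoImplicit false

/-- one pole, any family of nodes -/
lemma one_pole {n k r : ℕ} (hn : 3 ≤ n) (hk : k ∈ sM n) (hr : r ∈ Finset.Icc 1 10) (s : Finset ℕ)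
    (hs : s ⊆ Finset.range (10 * n - 10)) (i j : ℕ) (hbd : ∀ i < 10 * n - 10, |nd n i| ≤ 327 * n) :
    |((pa (sM n) mM (PM n * EM n (lag (Finset.range (10 * n - 10)) (zq n) i *
      lag s (zq n) j)) k r : ℚ) : ℝ)| ≤
    Real.exp (n * phi (20 * (((4 * n : ℤ) - k : ℤ) : ℝ) / n) +
      Lp n (Finset.range (10 * n - 10)) (20 * ((4 * n : ℤ) - k)) +
      Lp n s (20 * ((4 * n : ℤ) - k)) +
      (1403 + Real.log G2K) * Real.log n) := by
  set Q : ℚ[X] := lag (Finset.range (10 * n - 10)) (zq n) i *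
      lag s (zq n) j with hQ
  have h1 : ((|pa (sM n) mM (PM n * EM n Q) k r| : ℚ) : ℝ) ≤ _ := Rat.cast_le.2 (G2_rat hn hk hr Q)
  rw [Rat.cast_abs] at h1
  refine h1.trans ?_
  push_cast
  have hD : ((Pool.Agent.H574R2.D3.nrm (TS (-(k : ℚ)) (Q.comp (xM n))) : ℚ) : ℝ) ≤
      Real.exp ((Lp n (Finset.range (10 * n - 10)) (20 * ((4 * n : ℤ) - k)) +
        80 * (1 + Real.log ((400 * n : ℕ) : ℝ))) +
      (Lp n s (20 * ((4 * n : ℤ) - k)) +
        80 * (1 + Real.log ((400 * n : ℕ) : ℝ)))) := by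
    have h2 := G2_nodes hn (G0_nd_inj hn) hbd hk (Finset.range (10 * n - 10)) (Finset.Subset.refl _) i
    have h3 := G2_nodes hn (G0_nd_inj hn) hbd hk s hs j
    have h4 := G2r_mul_exp h2 h3
    rw [← map_mul, ← Polynomial.mul_comp] at h4
    exact h4
  have hD0 : (0 : ℝ) ≤ ((Pool.Agent.H574R2.D3.nrm (TS (-(k : ℚ)) (Q.comp (xM n))) : ℚ) : ℝ) := by
    exact_mod_cast Pool.Agent.H574R2.D3.nrm_nonneg _
  have hn0 : (0 : ℝ) < n := by
    have : (3 : ℝ) ≤ n := by exact_mod_cast hn
    linarith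
  have hF := G2_fact hn hk
  set D : ℝ := ((Pool.Agent.H574R2.D3.nrm (TS (-(k : ℚ)) (Q.comp (xM n))) : ℚ) : ℝ)
  have p1 : (0 : ℝ) < ((4 * n).factorial : ℝ) := by positivity
  have p2 : (0 : ℝ) < ((2 * n).factorial : ℝ) := by positivity
  have p3 : (0 : ℝ) < (k.factorial : ℝ) := by positivity
  have p4 : (0 : ℝ) < ((8 * n - k).factorial : ℝ) := by positivity
  have p5 : (0 : ℝ) < ((k - 2 * n).factorial : ℝ) := by positivity
  have p6 : (0 : ℝ) < ((6 * n - k).factorial : ℝ) := by positivity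
  have hE : ((4 * n).factorial : ℝ) ^ 10 / ((2 * n).factorial : ℝ) ^ 2 *
      ((k.factorial : ℝ) * ((8 * n - k).factorial : ℝ) / (((k - 2 * n).factorial : ℝ) * ((6 * n - k).factorial : ℝ))) *
      (1 / (((k - 2 * n).factorial : ℝ) * ((6 * n - k).factorial : ℝ))) ^ 10 =
      Real.exp (10 * Real.log ((4 * n).factorial : ℝ) - 2 * Real.log ((2 * n).factorial : ℝ) +
      Real.log (k.factorial : ℝ) + Real.log ((8 * n - k).factorial : ℝ) -
      11 * Real.log ((k - 2 * n).factorial : ℝ) - 11 * Real.log ((6 * n - k).factorial : ℝ)) := by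
    have q1 : Real.exp (10 * Real.log ((4 * n).factorial : ℝ)) = ((4 * n).factorial : ℝ) ^ 10 := by
      have := Real.exp_nat_mul (Real.log ((4 * n).factorial : ℝ)) 10
      rw [Real.exp_log p1] at this
      exact_mod_cast this
    have q2 : Real.exp (2 * Real.log ((2 * n).factorial : ℝ)) = ((2 * n).factorial : ℝ) ^ 2 := by
      have := Real.exp_nat_mul (Real.log ((2 * n).factorial : ℝ)) 2
      rw [Real.exp_log p2] at this
      exact_mod_cast this
    have q5 : Real.exp (11 * Real.log ((k - 2 * n).factorial : ℝ)) = ((k - 2 * n).factorial : ℝ) ^ 11 := by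
      have := Real.exp_nat_mul (Real.log ((k - 2 * n).factorial : ℝ)) 11
      rw [Real.exp_log p5] at this
      exact_mod_cast this
    have q6 : Real.exp (11 * Real.log ((6 * n - k).factorial : ℝ)) = ((6 * n - k).factorial : ℝ) ^ 11 := by
      have := Real.exp_nat_mul (Real.log ((6 * n - k).factorial : ℝ)) 11
      rw [Real.exp_log p6] at this
      exact_mod_cast this
    rw [Real.exp_sub, Real.exp_sub, Real.exp_add, Real.exp_add, Real.exp_sub, q1, q2, q5, q6, Real.exp_log p3,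
      Real.exp_log p4]
    field_simp
  have hpow : (n : ℝ) ^ 63 = Real.exp (63 * Real.log n) := by
    have := Real.exp_nat_mul (Real.log (n : ℝ)) 63
    rw [Real.exp_log hn0] at this
    exact_mod_cast this.symm
  have hln := G2_ln1 hn
  have hln4 := G2_ln400 hn
  have hKl : 0 ≤ Real.log G2K := Real.log_nonneg G2K_one
  calc _ = G2K * (n : ℝ) ^ 63 * (((4 * n).factorial : ℝ) ^ 10 / ((2 * n).factorial : ℝ) ^ 2 *
      ((k.factorial : ℝ) * ((8 * n - k).factorial : ℝ) / (((k - 2 * n).factorial : ℝ) * ((6 * n - k).factorial : ℝ))) *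
      (1 / (((k - 2 * n).factorial : ℝ) * ((6 * n - k).factorial : ℝ))) ^ 10) * D := by
        unfold G2K
        ring
    _ ≤ Real.exp (Real.log G2K) * Real.exp (63 * Real.log n) *
        Real.exp (n * phi (20 * (((4 * n : ℤ) - k : ℤ) : ℝ) / n) + 60 * Real.log n) *
        Real.exp ((Lp n (Finset.range (10 * n - 10)) (20 * ((4 * n : ℤ) - k)) +
          80 * (1 + Real.log ((400 * n : ℕ) : ℝ))) +
          (Lp n s (20 * ((4 * n : ℤ) - k)) +
          80 * (1 + Real.log ((400 * n : ℕ) : ℝ)))) := by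
        rw [hE, hpow, Real.exp_log G2K_pos]
        apply mul_le_mul _ hD hD0 (by have := G2K_pos; positivity)
        apply mul_le_mul_of_nonneg_left (Real.exp_le_exp.2 hF)
        have := G2K_pos
        positivity
    _ ≤ _ := by
        rw [← Real.exp_add, ← Real.exp_add, ← Real.exp_add]
        apply Real.exp_le_exp.2
        have h5 : Real.log G2K * 1 ≤ Real.log G2K * Real.log n := mul_le_mul_of_nonneg_left hln hKl
        have e5 : (((4 * n : ℤ) - k : ℤ) : ℝ) = (4 * n : ℝ) - k := by push_cast; ring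
        rw [e5]
        linarith


/-- the coefficients -/
lemma rho_le {n : ℕ} (hn : 3 ≤ n) (s : Finset ℕ) (hs : s ⊆ Finset.range (10 * n - 10)) (MX : ℝ)
    (hM : ∀ u : ℤ, |u| ≤ 2 * n → n * phi (20 * (u : ℝ) / n) + Lp n (Finset.range (10 * n - 10)) (20 * u) +
      Lp n s (20 * u) ≤ MX) (i j : ℕ) :
    ∀ r ∈ Finset.Icc 1 10, |((rho n (PM n * EM n (lag (Finset.range (10 * n - 10)) (zq n) i *
      lag s (zq n) j)) r : ℚ) : ℝ)| ≤ Real.exp (MX + (1407 + Real.log G2K) * Real.log n) := by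
  set Q : ℚ[X] := lag (Finset.range (10 * n - 10)) (zq n) i *
      lag s (zq n) j with hQ
  have hln := G2_ln1 hn
  have hln8 := G2_ln8 hn
  have hrho : ∀ r ∈ Finset.Icc 1 10, |((rho n (PM n * EM n Q) r : ℚ) : ℝ)| ≤
      Real.exp (MX + (1407 + Real.log G2K) * Real.log n) := by
    intro r hr
    unfold rho
    rw [Rat.cast_sum]
    refine (Finset.abs_sum_le_sum_abs _ _).trans ?_
    have h2 : ∀ k ∈ sM n, |((pa (sM n) mM (PM n * EM n Q) k r : ℚ) : ℝ)| ≤
        Real.exp (MX + (1403 + Real.log G2K) * Real.log n) := by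
      intro k hk
      refine (one_pole hn hk hr s hs i j (G2_bd hn)).trans (Real.exp_le_exp.2 ?_)
      obtain ⟨hk1, hk2⟩ := Finset.mem_Icc.1 hk
      have h3 := hM ((4 * n : ℤ) - k) (by
        rw [abs_le]
        constructor <;> omega)
      linarith
    refine (Finset.sum_le_sum h2).trans ?_
    rw [Finset.sum_const, nsmul_eq_mul]
    have h3 : ((sM n).card : ℝ) ≤ Real.exp (4 * Real.log n) := by
      have h5 : (0 : ℝ) < 8 * n + 1 := by positivity
      have h6 : (8 * n + 1 : ℝ) ≤ Real.exp (4 * Real.log n) := by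
        rw [← Real.exp_log h5]
        exact Real.exp_le_exp.2 hln8
      refine le_trans ?_ h6
      have h7 : (sM n).card ≤ 8 * n + 1 := by
        rw [Nat.card_Icc]; omega
      exact_mod_cast h7
    calc ((sM n).card : ℝ) * Real.exp (MX + (1403 + Real.log G2K) * Real.log n) ≤
          Real.exp (4 * Real.log n) * Real.exp (MX + (1403 + Real.log G2K) * Real.log n) :=
          mul_le_mul_of_nonneg_right h3 (Real.exp_pos _).le
      _ = _ := by rw [← Real.exp_add]; congr 1; ring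
  exact hrho

/-- the entries of the pole part -/
lemma BL_le {n : ℕ} (hn : 3 ≤ n) (β : ℕ → ℚ) (s : Finset ℕ) (hs : s ⊆ Finset.range (10 * n - 10)) (MY : ℝ)
    (hM : ∀ u : ℤ, |u| ≤ 2 * n → n * phi (20 * (u : ℝ) / n) + Lp n (Finset.range (10 * n - 10)) (20 * u) +
      Lp n s (20 * u) ≤ MY) (i j : ℕ) :
    |((BL n β (lag (Finset.range (10 * n - 10)) (zq n) i * lag s (zq n) j) : ℚ) : ℝ)| ≤
      Real.exp (MY + (1407 + Real.log G2K) * Real.log n + Real.log (1 + ∑ r ∈ Finset.Icc 1 10, |(β r : ℝ)|)) := by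
  set S : ℝ := ∑ r ∈ Finset.Icc 1 10, |(β r : ℝ)| with hS
  have hS0 : 0 ≤ S := Finset.sum_nonneg fun _ _ => abs_nonneg _
  have hrho := rho_le hn s hs MY hM i j
  rw [BL_apply]
  set Q : ℚ[X] := lag (Finset.range (10 * n - 10)) (zq n) i * lag s (zq n) j with hQ
  unfold xb
  rw [Rat.cast_sum]
  calc |∑ r ∈ Finset.Icc 1 10, ((rho n (PM n * EM n Q) r * β r : ℚ) : ℝ)|
      ≤ ∑ r ∈ Finset.Icc 1 10, |((rho n (PM n * EM n Q) r * β r : ℚ) : ℝ)| := Finset.abs_sum_le_sum_abs _ _
    _ ≤ ∑ r ∈ Finset.Icc 1 10, Real.exp (MY + (1407 + Real.log G2K) * Real.log n) * |(β r : ℝ)| := by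
        apply Finset.sum_le_sum
        intro r hr
        rw [Rat.cast_mul, abs_mul]
        exact mul_le_mul_of_nonneg_right (hrho r hr) (abs_nonneg _)
    _ = Real.exp (MY + (1407 + Real.log G2K) * Real.log n) * S := by rw [← Finset.mul_sum]
    _ ≤ Real.exp (MY + (1407 + Real.log G2K) * Real.log n) * (1 + S) :=
        mul_le_mul_of_nonneg_left (by linarith) (Real.exp_pos _).le
    _ = _ := by
        rw [Real.exp_add (MY + (1407 + Real.log G2K) * Real.log n), Real.exp_log (by linarith)]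

end

end Pool.Agent.TH21.PD9
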