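import Pool.Agent.H574R2.D9.H6

/-!
# Non-vanishing of the determinants at prime parameters, uniformly in the numbers

The proof is that of `H6_of` in `Pool/Agent/H574R2/D9/H6pre.lean`; it only uses that the prime `p` does not
divide the denominators and the leading coefficient `β i0`.
-/

open Polynomial Pool.Agent.H337R2 Pool.Agent.H574R2.D9

namespace Pool.Agent.TH21.PD9

noncomputable section

set_option autoImplicit false

lemma UInt_norm (p q : ℕ) (hpp : p.Prime) (hqp : ¬ p ∣ q) (u : ℕ → ℚ) (hu : UInt q u) (i : ℕ) :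
    padicNorm p (u i) ≤ 1 := by
  have : Fact p.Prime := ⟨hpp⟩
  have hq0 : 0 < q := hu.1
  obtain ⟨z, hz⟩ := hu.2 i
  have h1 : padicNorm p ((q : ℕ) : ℚ) = 1 := by
    rw [padicNorm.nat_eq_one_iff]
    exact hqp
  have h2 : padicNorm p ((q : ℚ) * u i) ≤ 1 := by
    rw [hz]
    exact padicNorm.of_int z
  rw [padicNorm.mul] at h2
  rw [h1, one_mul] at h2
  exact h2

/-- non-vanishing at prime parameters, one index -/
theorem nonv_of (A2_MD_ne : H6_A2) (H3_diag : H6_H3) (H4_offdiag : H6_H4) (H5_local : H6_H5)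
    (i0 : ℕ) (hi0 : i0 = 3 ∨ i0 = 5 ∨ i0 = 7) :
    ∃ p0 : ℕ, ∀ p : ℕ, p0 ≤ p → p.Prime → ∀ (α β : ℕ → ℚ) (q : ℕ), UInt q α → UInt q β → ¬ p ∣ q →
      (∀ i < i0, β i = 0) → padicNorm p (β i0) = 1 → DD p α β ≠ 0 := by
  -- bounds on the constants
  obtain ⟨p1, hp1⟩ := Pool.Agent.H336R2.HD.H6_unit _ (H5_local i0 hi0)
  obtain ⟨p2, hp2⟩ := H6_fin_int Fm 29
  obtain ⟨p3, hp3⟩ := H6_fin_int (Bm i0) 29
  refine ⟨p1 + p2 + p3 + 100, fun p hp hpp α β q hα hβ hpq hβ0 hβ1 => ?_⟩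
  have : Fact p.Prime := ⟨hpp⟩
  have hp100 : 100 ≤ p := by omega
  have hodd : p % 2 = 1 := by
    rcases hpp.eq_two_or_odd with h | h
    · omega
    · exact h
  have hαp : ∀ i, padicNorm p (α i) ≤ 1 := UInt_norm p q hpp hpq α hα
  have hβp : ∀ i, padicNorm p (β i) ≤ 1 := UInt_norm p q hpp hpq β hβ
  set h := (p - 1) / 2 with hh
  have hph : p = 2 * h + 1 := by omega
  have hp0 : (p : ℚ) ≠ 0 := by exact_mod_cast hpp.ne_zero
  -- choose the units
  have hw : ∀ r : Fin h, ∃ w : ℚ, padicNorm p w = 1 ∧ ∀ e : ℕ, e ≤ 28 →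
      padicNorm p ((p : ℚ) ^ (-(e : ℤ)) * AL p α (XN p (r.1 + 1) ^ e * OT p (r.1 + 1) 30) -
        w * (-2 * ((r.1 + 1 : ℕ) : ℚ)) ^ e * Fm e) ≤ (p : ℚ)⁻¹ ∧
      padicNorm p ((p : ℚ) ^ (-(e : ℤ) - i0) * BL p β (XN p (r.1 + 1) ^ e * OT p (r.1 + 1) 30) -
        w * (-2 * ((r.1 + 1 : ℕ) : ℚ)) ^ e * (β i0 * Bm i0 e)) ≤ (p : ℚ)⁻¹ := by
    intro r
    have hr := r.2
    exact H3_diag hp100 α β hαp hβp i0 hi0 hβ0 (r.1 + 1) (by omega) (by omega)
  choose w hw1 hw2 using hw
  have hunit : ∀ r : Fin h, padicNorm p (-2 * ((r.1 + 1 : ℕ) : ℚ)) = 1 := by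
    intro r
    have hr := r.2
    have h3 : (-2 * ((r.1 + 1 : ℕ) : ℚ)) = ((-(2 * (r.1 + 1) : ℕ) : ℤ) : ℚ) := by
      push_cast
      ring
    rw [h3, padicNorm.int_eq_one_iff]
    intro h4
    rw [Int.dvd_neg, Int.natCast_dvd_natCast] at h4
    have := Nat.le_of_dvd (by omega) h4
    omega
  -- the Gram matrix
  set Q : Fin 20 × Fin h → ℚ[X] := fun a => H6_P p (a.2.1 + 1) 20 a.1.1 with hQ
  set P : Fin 10 × Fin h → ℚ[X] := fun c => H6_P p (c.2.1 + 1) 10 c.1.1 with hP
  set G : Matrix (Fin 20 × Fin h) (Fin 20 × Fin h) ℚ :=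
    Matrix.of fun r s => Sum.elim (fun c => AL p α (Q r * P c)) (fun c => BL p β (Q r * P c))
      (H6_e h s) with hG
  have key : G.det ≠ 0 := by
    set c : Fin 20 × Fin h → ℚ := fun a => (p : ℚ) ^ (-(a.1.1 : ℤ)) with hc
    set d : Fin 20 × Fin h → ℚ := fun a =>
      if a.1.1 < 10 then (p : ℚ) ^ (-(a.1.1 : ℤ)) else (p : ℚ) ^ (-((a.1.1 - 10 : ℕ) : ℤ) - i0) with hd
    set M : Matrix (Fin 20 × Fin h) (Fin 20 × Fin h) ℚ :=
      Matrix.of fun a b => c a * d b * G a b with hM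
    set Bl : Fin h → Matrix (Fin 20) (Fin 20) ℚ := fun r =>
      Matrix.of fun l l' => if l'.1 < 10 then
          w r * (-2 * ((r.1 + 1 : ℕ) : ℚ)) ^ (l.1 + l'.1) * Fm (l.1 + l'.1)
        else w r * (-2 * ((r.1 + 1 : ℕ) : ℚ)) ^ (l.1 + (l'.1 - 10)) * (β i0 * Bm i0 (l.1 + (l'.1 - 10)))
      with hBl
    have hM0 : M.det ≠ 0 := by
      apply Pool.Agent.H336R2.HD.A6_det_congr p M (Matrix.blockDiagonal Bl)
      · intro a b
        rw [Matrix.blockDiagonal_apply]
        split_ifs with hab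
        · simp only [hBl, Matrix.of_apply]
          have ha := a.1.2
          have hb := b.1.2
          split_ifs with hl
          · have h1 : padicNorm p (Fm (a.1.1 + b.1.1)) ≤ 1 :=
              hp2 _ (Finset.mem_range.2 (by omega)) p (by omega) hpp
            rw [padicNorm.mul, padicNorm.mul, hw1, one_mul, H6_norm_pow p _ (hunit a.2), one_mul]
            exact h1
          · have h1 : padicNorm p (Bm i0 (a.1.1 + (b.1.1 - 10))) ≤ 1 :=
              hp3 _ (Finset.mem_range.2 (by omega)) p (by omega) hpp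
            rw [padicNorm.mul, padicNorm.mul, hw1, one_mul, H6_norm_pow p _ (hunit a.2), one_mul,
              padicNorm.mul]
            exact mul_le_one₀ (hβp i0) (padicNorm.nonneg _) h1
        · simp
      · intro a b
        rw [Matrix.blockDiagonal_apply]
        have ha := a.1.2
        have hb := b.1.2
        have ha2 := a.2.2
        have hb2 := b.2.2
        by_cases hl : b.1.1 < 10
        · have hMab : M a b = (p : ℚ) ^ (-(a.1.1 : ℤ) - (b.1.1 : ℤ)) *
              AL p α (H6_P p (a.2.1 + 1) 20 a.1.1 * H6_P p (b.2.1 + 1) 10 b.1.1) := by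
            simp only [hM, hG, Matrix.of_apply, hc, hd, if_pos hl, H6_e_lt h b hl, Sum.elim_inl, hQ, hP]
            rw [← zpow_add₀ hp0]
            rfl
          split_ifs with hab
          · rw [hMab, ← hab, H6_P_mul]
            have h1 := (hw2 a.2 (a.1.1 + b.1.1) (by omega)).1
            have h2 : (-((a.1.1 + b.1.1 : ℕ) : ℤ)) = -(a.1.1 : ℤ) - (b.1.1 : ℤ) := by
              push_cast
              ring
            rw [h2] at h1
            simp only [hBl, Matrix.of_apply, if_pos hl]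
            exact h1
          · rw [hMab, sub_zero]
            refine (H4_offdiag hp100 α β hαp hβp i0 hi0 hβ0 (a.2.1 + 1) (b.2.1 + 1) a.1.1 b.1.1 (by omega)
              (by omega) (by omega) (by omega) ?_ ha hl).1
            intro h1
            apply hab
            ext
            omega
        · have hMab : M a b = (p : ℚ) ^ (-(a.1.1 : ℤ) - ((b.1.1 - 10 : ℕ) : ℤ) - i0) *
              BL p β (H6_P p (a.2.1 + 1) 20 a.1.1 * H6_P p (b.2.1 + 1) 10 (b.1.1 - 10)) := by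
            simp only [hM, hG, Matrix.of_apply, hc, hd, if_neg hl, H6_e_ge h b hl, Sum.elim_inr, hQ, hP]
            rw [← zpow_add₀ hp0]
            congr 2
            ring
          split_ifs with hab
          · rw [hMab, ← hab, H6_P_mul]
            have h1 := (hw2 a.2 (a.1.1 + (b.1.1 - 10)) (by omega)).2
            have h2 : (-((a.1.1 + (b.1.1 - 10) : ℕ) : ℤ)) - i0 =
                -(a.1.1 : ℤ) - ((b.1.1 - 10 : ℕ) : ℤ) - i0 := by
              push_cast
              ring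
            rw [h2] at h1
            simp only [hBl, Matrix.of_apply, if_neg hl]
            exact h1
          · rw [hMab, sub_zero]
            refine (H4_offdiag hp100 α β hαp hβp i0 hi0 hβ0 (a.2.1 + 1) (b.2.1 + 1) a.1.1 (b.1.1 - 10)
              (by omega) (by omega) (by omega) (by omega) ?_ ha (by omega)).2
            intro h1
            apply hab
            ext
            omega
      · rw [Matrix.det_blockDiagonal]
        apply H6_norm_prod p
        intro r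
        have h1 : Bl r = Matrix.of fun l l' => (w r) *
            (Matrix.of fun l l' : Fin 20 => ((-2 * ((r.1 + 1 : ℕ) : ℚ)) ^ l.1) *
              (if l'.1 < 10 then (-2 * ((r.1 + 1 : ℕ) : ℚ)) ^ l'.1
                else (-2 * ((r.1 + 1 : ℕ) : ℚ)) ^ (l'.1 - 10) * β i0) *
              (Matrix.of fun l l' : Fin 20 => if l'.1 < 10 then Fm (l.1 + l'.1)
                else Bm i0 (l.1 + (l'.1 - 10))) l l') l l' := by
          ext l l'
          simp only [hBl, Matrix.of_apply]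
          split_ifs <;> ring
        rw [h1, Matrix.det_mul_column (fun _ => w r), H6_det_scale (fun l : Fin 20 =>
          ((-2 * ((r.1 + 1 : ℕ) : ℚ)) ^ l.1)) (fun l' : Fin 20 =>
          (if l'.1 < 10 then (-2 * ((r.1 + 1 : ℕ) : ℚ)) ^ l'.1
                else (-2 * ((r.1 + 1 : ℕ) : ℚ)) ^ (l'.1 - 10) * β i0))]
        have h5 : ∀ i : Fin 20, padicNorm p ((-2 * ((r.1 + 1 : ℕ) : ℚ)) ^ i.1) = 1 := fun i =>
          H6_norm_pow p _ (hunit r) _
        have h6 : ∀ i : Fin 20, padicNorm p (if i.1 < 10 then (-2 * ((r.1 + 1 : ℕ) : ℚ)) ^ i.1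
                else (-2 * ((r.1 + 1 : ℕ) : ℚ)) ^ (i.1 - 10) * β i0) = 1 := by
          intro i
          split_ifs
          · exact h5 i
          · rw [padicNorm.mul, H6_norm_pow p _ (hunit r), hβ1, one_mul]
        rw [padicNorm.mul, padicNorm.mul, padicNorm.mul, H6_norm_prod p _ (fun _ => hw1 r),
          H6_norm_prod p _ h5, H6_norm_prod p _ h6, hp1 p (by omega) hpp]
        norm_num
    intro h0
    apply hM0
    rw [hM, H6_det_scale, h0, mul_zero, mul_zero]
  -- conclusion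
  have hm : 5 * p - 5 = 10 * h := by omega
  unfold DD
  rw [hm]
  refine A2_MD_ne (AL p α) (BL p β) (10 * h) (H6_e h) ?_ ?_ Q P ?_ ?_ key
  · simp only [Fintype.card_prod, Fintype.card_fin]
    omega
  · simp only [Fintype.card_prod, Fintype.card_fin]
  · intro a
    have ha := a.1.2
    have ha2 := a.2.2
    have := H6_P_natDegree p (a.2.1 + 1) 20 a.1.1 (by omega) (by omega) ha hodd
    rw [← hh] at this
    rw [hQ]
    refine this.trans_le ?_
    omega
  · intro a
    have ha := a.1.2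
    have ha2 := a.2.2
    have := H6_P_natDegree p (a.2.1 + 1) 10 a.1.1 (by omega) (by omega) ha hodd
    rw [← hh] at this
    rw [hP]
    exact this


/-- **non-vanishing**, uniform -/
theorem nonv : ∃ p0 : ℕ, ∀ p : ℕ, p0 ≤ p → p.Prime → ∀ (α β : ℕ → ℚ) (q : ℕ), UInt q α → UInt q β → ¬ p ∣ q →
    ∀ i0 : ℕ, (i0 = 3 ∨ i0 = 5 ∨ i0 = 7) → (∀ i < i0, β i = 0) → padicNorm p (β i0) = 1 → DD p α β ≠ 0 := by
  have key := nonv_of (fun A B m _ _ _ _ _ _ e hR hC Q P hQ hP h =>
      Pool.Agent.H574R2.D3.A2_MD_ne A B m e hR hC Q P hQ hP h)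
    (fun hp α β hα hβ i0 hi0 hβ0 r hr1 hr2 => H3_diag hp α β hα hβ i0 hi0 hβ0 r hr1 hr2)
    (fun hp α β hα hβ i0 hi0 hβ0 r s l l' hr1 hr2 hs1 hs2 hrs hl hl' =>
      H4_offdiag hp α β hα hβ i0 hi0 hβ0 r s l l' hr1 hr2 hs1 hs2 hrs hl hl')
    (fun i0 hi0 => H5_local i0 hi0)
  obtain ⟨a3, h3⟩ := key 3 (Or.inl rfl)
  obtain ⟨a5, h5⟩ := key 5 (Or.inr (Or.inl rfl))
  obtain ⟨a7, h7⟩ := key 7 (Or.inr (Or.inr rfl))
  refine ⟨a3 + a5 + a7, fun p hp hpp α β q hα hβ hpq i0 hi0 hβ0 hβ1 => ?_⟩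
  rcases hi0 with rfl | rfl | rfl
  · exact h3 p (by omega) hpp α β q hα hβ hpq hβ0 hβ1
  · exact h5 p (by omega) hpp α β q hα hβ hpq hβ0 hβ1
  · exact h7 p (by omega) hpp α β q hα hβ hpq hβ0 hβ1

end

end Pool.Agent.TH21.PD9
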