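import Pool.Agent.H574R2.D9.Z

/-!
# The p-adic part of `Pool/Agent/H574R2/D9/`, uniformly in the numbers

`P_unif` is `P_main` of that development with the threshold for `n` independent of `q, α, β`; the proof is
the one given there (the thresholds in the estimates do not depend on the numbers).
-/

open Polynomial Pool.Agent.H337R2 Pool.Agent.H574R2.D9 Filter Topology

namespace Pool.Agent.TH21.PD9

noncomputable section

set_option autoImplicit false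

/-- the p-adic part, with a threshold which does not depend on the numbers -/
theorem P_unif_of (hmed : PMmed) (hcrude : PMcrude)
    (hE4 : ∃ K0 : ℝ, 0 ≤ K0 ∧ ∀ n : ℕ, 100 ≤ n → ∀ p : ℕ, p.Prime → n < 50 * p → 20 * n < p ^ 2 →
      ∀ (q : ℕ) (α β : ℕ → ℚ), UInt q α → UInt q β → (∀ i < 3, β i = 0) →
      ((padicNorm p ((q : ℚ) ^ (10 * n - 10) * DD n α β) : ℚ) : ℝ) ≤
        if p < 4 * n then (p : ℝ) ^ (EW n p + K0) else 1)
    (hF2A : Tendsto (fun n : ℕ => (∑ p ∈ PS (1 / 50) 2 n, EA n p * Real.log p) / (n : ℝ) ^ 2) atTop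
      (𝓝 ((LA : ℝ) - 6 * Real.log 100)))
    (hF2B : Tendsto (fun n : ℕ => (∑ p ∈ PS 2 3 n, EB n p * Real.log p) / (n : ℝ) ^ 2) atTop
      (𝓝 (LB : ℝ)))
    (hF2C : Tendsto (fun n : ℕ => (∑ p ∈ PS 3 4 n, EC n p * Real.log p) / (n : ℝ) ^ 2) atTop
      (𝓝 (LC : ℝ)))
    (hF2U : Tendsto (fun n : ℕ => (∑ p ∈ PS (1 / 50) 20 n,
      (∑ j ∈ Finset.Icc 1 1000, (1 / 2 * tn (20 * n) j p + tn (10 * n) j p)) * Real.log p) / (n : ℝ) ^ 2)
      atTop (𝓝 (LU : ℝ)))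
    (hF3n : LA + LB + LC + LU ≤ 17130 / 100)
    (hF4 : ∀ ε : ℝ, 0 < ε → ∀ᶠ n : ℕ in atTop,
      10 * (n : ℝ) * (∑ p ∈ (Finset.range (n + 1)).filter (fun p : ℕ => p.Prime ∧ p ^ 2 ≤ 20 * n),
          40 * Real.log (20 * n + 1) +
        ∑ p ∈ (Finset.range (n + 1)).filter (fun p : ℕ => p.Prime ∧ 50 * p ≤ n), 10 * Real.log p) ≤
      (2 + ε) * (n : ℝ) ^ 2)
    (hF5 : ∀ᶠ n : ℕ in atTop,
      ∑ p ∈ (Finset.range (n + 1)).filter (fun p : ℕ => p.Prime ∧ 50 * p ≤ n),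
        (∑ i ∈ Finset.range (10 * n - 10), Real.log ((padicNorm p (((2 * i - 1).factorial : ℕ) : ℚ) : ℚ) : ℝ) +
         2 * ∑ i ∈ Finset.range (5 * n - 5), Real.log ((padicNorm p (((2 * i - 1).factorial : ℕ) : ℚ) : ℚ) : ℝ)) ≤
      - (∑ i ∈ Finset.range (10 * n - 10), Real.log ((2 * i - 1).factorial : ℝ) +
         2 * ∑ i ∈ Finset.range (5 * n - 5), Real.log ((2 * i - 1).factorial : ℝ)) +
        ∑ p ∈ PS (1 / 50) 20 n,
          (∑ j ∈ Finset.Icc 1 1000, (1 / 2 * tn (20 * n) j p + tn (10 * n) j p)) * Real.log p)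
    (hF6 : ∀ ε : ℝ, 0 < ε → ∀ᶠ n : ℕ in atTop,
      150 * (n : ℝ) ^ 2 * Real.log n + (250 * Real.log 2 + 150 * Real.log 5 - 225 - ε) * (n : ℝ) ^ 2 ≤
        ∑ i ∈ Finset.range (10 * n - 10), Real.log ((2 * i - 1).factorial : ℝ) +
         2 * ∑ i ∈ Finset.range (5 * n - 5), Real.log ((2 * i - 1).factorial : ℝ)) :
    ∀ᶠ n : ℕ in atTop, ∀ (q : ℕ) (α β : ℕ → ℚ), UInt q α → UInt q β → (∀ i < 3, β i = 0) →
    DD n α β ≠ 0 →
    ∑ p ∈ (Finset.range (20 * n + 1)).filter Nat.Prime,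
      Real.log ((padicNorm p ((q : ℚ) ^ (10 * n - 10) * DD n α β) : ℚ) : ℝ) ≤
    -(150 * (n : ℝ) ^ 2 * Real.log n) - 439 / 10 * (n : ℝ) ^ 2 := by
  classical
  obtain ⟨K0, hK0, hE4'⟩ := hE4
  have hF3 : ((LA : ℝ) + LB + LC + LU) ≤ 17130 / 100 := by
    have h := (Rat.cast_le (K := ℝ)).2 hF3n
    push_cast at h
    exact h
  have hε : (0 : ℝ) < 1 / 200 := by norm_num
  have ev2 := PM_ev hF2A (1 / 200) hε
  have ev3 := PM_ev hF2B (1 / 200) hε
  have ev4 := PM_ev hF2C (1 / 200) hε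
  have ev5 := PM_ev hF2U (1 / 200) hε
  have ev6 := hF4 (1 / 200) hε
  have ev8 := hF6 (1 / 200) hε
  have ev9 : ∀ᶠ n : ℕ in atTop, K0 * (Real.log 4 * 4) ≤ 1 / 200 * n := by
    have := (tendsto_natCast_atTop_atTop (R := ℝ)).const_mul_atTop hε
    exact this.eventually_ge_atTop _
  filter_upwards [ev2, ev3, ev4, ev5, ev6, hF5, ev8, ev9, eventually_ge_atTop 60000]
    with n g2 g3 g4 g5 g6 g7 g8 g9 hn q α β hα hβ hβ3 hD
  have hn0 : (0 : ℝ) < n := by exact_mod_cast (by omega : 0 < n)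
  have hn1 : 1 ≤ n := by omega
  have hqq : (0 : ℚ) < q := by exact_mod_cast hα.1
  have hz : (q : ℚ) ^ (10 * n - 10) * DD n α β ≠ 0 := mul_ne_zero (pow_pos hqq _).ne' hD
  rw [← Finset.sum_filter_add_sum_filter_not _ (fun p => 50 * p ≤ n)]
  have e1 : ((Finset.range (20 * n + 1)).filter Nat.Prime).filter (fun p => 50 * p ≤ n) =
      (Finset.range (n + 1)).filter (fun p : ℕ => p.Prime ∧ 50 * p ≤ n) := by
    ext p
    simp only [Finset.mem_filter, Finset.mem_range]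
    constructor
    · rintro ⟨⟨h1, h2⟩, h3⟩; exact ⟨by omega, h2, h3⟩
    · rintro ⟨h1, h2, h3⟩; exact ⟨⟨by omega, h2⟩, h3⟩
  rw [e1]
  have hsmall : ∑ p ∈ (Finset.range (n + 1)).filter (fun p : ℕ => p.Prime ∧ 50 * p ≤ n),
      Real.log ((padicNorm p ((q : ℚ) ^ (10 * n - 10) * DD n α β) : ℚ) : ℝ) ≤
      10 * (n : ℝ) * (∑ p ∈ (Finset.range (n + 1)).filter (fun p : ℕ => p.Prime ∧ p ^ 2 ≤ 20 * n),
        40 * Real.log (20 * n + 1) +
      ∑ p ∈ (Finset.range (n + 1)).filter (fun p : ℕ => p.Prime ∧ 50 * p ≤ n), 10 * Real.log p) +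
      ∑ p ∈ (Finset.range (n + 1)).filter (fun p : ℕ => p.Prime ∧ 50 * p ≤ n),
      (∑ i ∈ Finset.range (10 * n - 10), Real.log ((padicNorm p (((2 * i - 1).factorial : ℕ) : ℚ) : ℚ) : ℝ) +
       2 * ∑ i ∈ Finset.range (5 * n - 5), Real.log ((padicNorm p (((2 * i - 1).factorial : ℕ) : ℚ) : ℚ) : ℝ)) := by
    calc _ ≤ ∑ p ∈ (Finset.range (n + 1)).filter (fun p : ℕ => p.Prime ∧ 50 * p ≤ n),
          (10 * (n : ℝ) * ((if p ^ 2 ≤ 20 * n then 40 * Real.log (20 * n + 1) else 0) + 10 * Real.log p) +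
          (∑ i ∈ Finset.range (10 * n - 10), Real.log ((padicNorm p (((2 * i - 1).factorial : ℕ) : ℚ) : ℚ) : ℝ) +
       2 * ∑ i ∈ Finset.range (5 * n - 5), Real.log ((padicNorm p (((2 * i - 1).factorial : ℕ) : ℚ) : ℚ) : ℝ))) := by
          apply Finset.sum_le_sum
          intro p hp
          rw [Finset.mem_filter] at hp
          exact PM_small hmed hcrude n p hn1 hp.2.1 q α β hα hβ hβ3 hz
      _ ≤ _ := by
          rw [Finset.sum_add_distrib, ← Finset.mul_sum, Finset.sum_add_distrib]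
          apply add_le_add_left
          apply mul_le_mul_of_nonneg_left _ (by positivity)
          apply add_le_add_left
          rw [← Finset.sum_filter]
          apply Finset.sum_le_sum_of_subset_of_nonneg
          · intro p hp
            simp only [Finset.mem_filter, Finset.mem_range] at hp ⊢
            exact ⟨hp.1.1, hp.1.2.1, hp.2⟩
          · intro p _ _
            have : 0 ≤ Real.log (20 * (n : ℝ) + 1) := Real.log_nonneg (by linarith)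
            positivity
  have hlarge : ∑ p ∈ ((Finset.range (20 * n + 1)).filter Nat.Prime).filter (fun p => ¬ 50 * p ≤ n),
      Real.log ((padicNorm p ((q : ℚ) ^ (10 * n - 10) * DD n α β) : ℚ) : ℝ) ≤
      ∑ p ∈ PS (1 / 50) 2 n, EA n p * Real.log p + ∑ p ∈ PS 2 3 n, EB n p * Real.log p +
      ∑ p ∈ PS 3 4 n, EC n p * Real.log p + K0 * (Real.log 4 * (4 * n)) := by
    refine le_trans ?_ (PM_EW_split n (by omega) K0 hK0)
    have h1 : ∑ p ∈ ((Finset.range (20 * n + 1)).filter Nat.Prime).filter (fun p => ¬ 50 * p ≤ n),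
        Real.log ((padicNorm p ((q : ℚ) ^ (10 * n - 10) * DD n α β) : ℚ) : ℝ) ≤
        ∑ p ∈ ((Finset.range (20 * n + 1)).filter Nat.Prime).filter (fun p => ¬ 50 * p ≤ n),
        (if p < 4 * n then (EW n p + K0) * Real.log p else 0) := by
      apply Finset.sum_le_sum
      intro p hp
      rw [Finset.mem_filter, Finset.mem_filter] at hp
      exact PM_log_large K0 hE4' n hn p hp.1.2 hp.2 q α β hα hβ hβ3 hz
    refine h1.trans (le_of_eq ?_)
    rw [← Finset.sum_filter]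
    apply Finset.sum_congr _ fun _ _ => rfl
    ext p
    simp only [Finset.mem_filter, Finset.mem_range]
    constructor
    · rintro ⟨⟨⟨h1, h2⟩, h3⟩, h4⟩; exact ⟨⟨h4, h2⟩, h3⟩
    · rintro ⟨⟨h1, h2⟩, h3⟩; exact ⟨⟨⟨by omega, h2⟩, h3⟩, h1⟩
  have hfin : K0 * (Real.log 4 * (4 * n)) ≤ 1 / 200 * (n : ℝ) ^ 2 := by
    have := mul_le_mul_of_nonneg_right g9 hn0.le
    nlinarith
  have hn2 : (0 : ℝ) < (n : ℝ) ^ 2 := by positivity
  have h100 : Real.log 100 = 2 * Real.log 2 + 2 * Real.log 5 := by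
    rw [show (100 : ℝ) = 2 ^ 2 * 5 ^ 2 by norm_num, Real.log_mul (by norm_num) (by norm_num),
      Real.log_pow, Real.log_pow]
    push_cast; ring
  rw [h100] at g2
  have hl2 := Real.log_two_gt_d9
  have hl5 := PM_log5
  have hconst : (2 + 225 + ((LA : ℝ) + LB + LC + LU) - 262 * Real.log 2 - 162 * Real.log 5 + 8 / 200) ≤
      -(439 / 10) := by
    linarith
  have htot : (2 + 225 + ((LA : ℝ) + LB + LC + LU) - 262 * Real.log 2 - 162 * Real.log 5 + 8 / 200) *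
      (n : ℝ) ^ 2 ≤ -(439 / 10) * (n : ℝ) ^ 2 := mul_le_mul_of_nonneg_right hconst hn2.le
  have g2' : ∑ p ∈ PS (1 / 50) 2 n, EA n p * Real.log p ≤
      (LA : ℝ) * (n : ℝ) ^ 2 - 12 * Real.log 2 * (n : ℝ) ^ 2 - 12 * Real.log 5 * (n : ℝ) ^ 2 +
        1 / 200 * (n : ℝ) ^ 2 := by
    refine g2.trans (le_of_eq ?_); ring
  have g3' : ∑ p ∈ PS 2 3 n, EB n p * Real.log p ≤ (LB : ℝ) * (n : ℝ) ^ 2 + 1 / 200 * (n : ℝ) ^ 2 := by
    refine g3.trans (le_of_eq ?_); ring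
  have g4' : ∑ p ∈ PS 3 4 n, EC n p * Real.log p ≤ (LC : ℝ) * (n : ℝ) ^ 2 + 1 / 200 * (n : ℝ) ^ 2 := by
    refine g4.trans (le_of_eq ?_); ring
  have g5' : ∑ p ∈ PS (1 / 50) 20 n,
      (∑ j ∈ Finset.Icc 1 1000, (1 / 2 * tn (20 * n) j p + tn (10 * n) j p)) * Real.log p ≤
      (LU : ℝ) * (n : ℝ) ^ 2 + 1 / 200 * (n : ℝ) ^ 2 := by
    refine g5.trans (le_of_eq ?_); ring
  have g8' : 150 * (n : ℝ) ^ 2 * Real.log n + 250 * Real.log 2 * (n : ℝ) ^ 2 +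
      150 * Real.log 5 * (n : ℝ) ^ 2 - 225 * (n : ℝ) ^ 2 - 1 / 200 * (n : ℝ) ^ 2 ≤
        ∑ i ∈ Finset.range (10 * n - 10), Real.log ((2 * i - 1).factorial : ℝ) +
         2 * ∑ i ∈ Finset.range (5 * n - 5), Real.log ((2 * i - 1).factorial : ℝ) := by
    refine le_trans (le_of_eq ?_) g8; ring
  have htot' : 227 * (n : ℝ) ^ 2 + (LA : ℝ) * (n : ℝ) ^ 2 + (LB : ℝ) * (n : ℝ) ^ 2 + (LC : ℝ) * (n : ℝ) ^ 2 +
      (LU : ℝ) * (n : ℝ) ^ 2 - 262 * Real.log 2 * (n : ℝ) ^ 2 - 162 * Real.log 5 * (n : ℝ) ^ 2 +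
      8 / 200 * (n : ℝ) ^ 2 ≤ -(439 / 10) * (n : ℝ) ^ 2 := by
    refine le_trans (le_of_eq ?_) htot; ring
  have hfinal := add_le_add hsmall hlarge
  refine hfinal.trans ?_
  linarith


/-- **the p-adic part**, uniform in the numbers -/
theorem P_unif : ∀ᶠ n : ℕ in atTop, ∀ (q : ℕ) (α β : ℕ → ℚ), UInt q α → UInt q β → (∀ i < 3, β i = 0) →
    DD n α β ≠ 0 →
    ∑ p ∈ (Finset.range (20 * n + 1)).filter Nat.Prime,
      Real.log ((padicNorm p ((q : ℚ) ^ (10 * n - 10) * DD n α β) : ℚ) : ℝ) ≤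
    -(150 * (n : ℝ) ^ 2 * Real.log n) - 439 / 10 * (n : ℝ) ^ 2 :=
  P_unif_of (fun hn hp q α β hα hβ hβ3 m hm => D4_small_med hn hp q α β hα hβ hβ3 m hm)
    (fun hn q α β hα hβ hβ3 m hm => D4_small_crude hn q α β hα hβ hβ3 m hm)
    E4_padic F2_A F2_B F2_C F2_U F3_numeric F4_small F5_fact F6_superfac

end

end Pool.Agent.TH21.PD9
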